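import Mathlib

/-!
# The first coefficients of a polynomial in terms of the power sums of its roots
-/

set_option autoImplicit false
set_option linter.unusedSectionVars false

namespace Pool.Agent.Q23.CH

open Finset Polynomial

section

variable {K : Type*} [Field K] {ι : Type*} [Fintype ι] [DecidableEq ι]

lemma coeff_top (s : ι → K) {j : ℕ} (hj : j ≤ Fintype.card ι) :
    (∏ i, (X - C (s i))).coeff (Fintype.card ι - j) = (-1) ^ j * (univ.val.map s).esymm j := by
  have h := Multiset.prod_X_sub_C_coeff (univ.val.map s) (k := Fintype.card ι - j) (by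
    rw [Multiset.card_map]; simp)
  rw [Multiset.map_map] at h
  have h2 : Multiset.card (univ.val.map s) - (Fintype.card ι - j) = j := by
    rw [Multiset.card_map]
    have : Multiset.card (univ : Finset ι).val = Fintype.card ι := rfl
    omega
  rw [h2] at h
  rw [← h]
  rfl

lemma aeval_psum (s : ι → K) (n : ℕ) :
    MvPolynomial.aeval s (MvPolynomial.psum ι ℤ n) = ∑ i, s i ^ n := by
  rw [MvPolynomial.psum, map_sum]
  simp

lemma esymm1 (s : ι → K) : (univ.val.map s).esymm 1 = ∑ i, s i := by
  have h := congrArg (MvPolynomial.aeval s) (MvPolynomial.mul_esymm_eq_sum ι ℤ 1)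
  rw [show (antidiagonal 1).filter (fun a : ℕ × ℕ => a.1 < 1) = {(0, 1)} from by decide] at h
  rw [Finset.sum_singleton] at h
  simp only [map_mul, map_natCast, map_pow, map_neg, map_one, aeval_psum,
    MvPolynomial.aeval_esymm_eq_multiset_esymm] at h
  have h0 : (univ.val.map s).esymm 0 = 1 := by simp [Multiset.esymm]
  rw [h0] at h
  simpa using h

lemma esymm2 (s : ι → K) : 2 * (univ.val.map s).esymm 2 = (∑ i, s i) ^ 2 - ∑ i, s i ^ 2 := by
  have h := congrArg (MvPolynomial.aeval s) (MvPolynomial.mul_esymm_eq_sum ι ℤ 2)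
  rw [show (antidiagonal 2).filter (fun a : ℕ × ℕ => a.1 < 2) = {(0, 2), (1, 1)} from by decide] at h
  rw [Finset.sum_insert (by decide), Finset.sum_singleton] at h
  simp only [map_mul, map_natCast, map_pow, map_neg, map_one, map_add, aeval_psum,
    MvPolynomial.aeval_esymm_eq_multiset_esymm, esymm1] at h
  have h0 : (univ.val.map s).esymm 0 = 1 := by simp [Multiset.esymm]
  rw [h0] at h
  push_cast at h
  simp only [pow_one] at h
  linear_combination h

lemma esymm3 (s : ι → K) : 6 * (univ.val.map s).esymm 3 =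
    (∑ i, s i) ^ 3 - 3 * (∑ i, s i) * (∑ i, s i ^ 2) + 2 * ∑ i, s i ^ 3 := by
  have h := congrArg (MvPolynomial.aeval s) (MvPolynomial.mul_esymm_eq_sum ι ℤ 3)
  rw [show (antidiagonal 3).filter (fun a : ℕ × ℕ => a.1 < 3) = {(0, 3), (1, 2), (2, 1)} from
    by decide] at h
  rw [Finset.sum_insert (by decide), Finset.sum_insert (by decide), Finset.sum_singleton] at h
  simp only [map_mul, map_natCast, map_pow, map_neg, map_one, map_add, aeval_psum,
    MvPolynomial.aeval_esymm_eq_multiset_esymm, esymm1] at h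
  have h0 : (univ.val.map s).esymm 0 = 1 := by simp [Multiset.esymm]
  rw [h0] at h
  push_cast at h
  simp only [pow_one] at h
  have h2 := esymm2 s
  linear_combination 2 * h + (∑ i, s i) * h2

end

section

variable {K : Type*} [Field K] {α : Type*}

theorem fs_coeff (S : Finset α) (s : α → K) {j : ℕ} (hj : j ≤ S.card) :
    (∏ k ∈ S, (X - C (s k))).coeff (S.card - j)
      = (-1) ^ j * (univ.val.map (fun k : S => s k)).esymm j := by
  classical
  have h := coeff_top (fun k : S => s k) (j := j) (by rw [Fintype.card_coe]; exact hj)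
  rw [Fintype.card_coe] at h
  rw [← h, Finset.prod_coe_sort S (fun k => X - C (s k))]

theorem fs_c1 (S : Finset α) (s : α → K) (hj : 1 ≤ S.card) :
    (∏ k ∈ S, (X - C (s k))).coeff (S.card - 1) = - ∑ k ∈ S, s k := by
  classical
  rw [fs_coeff S s hj, esymm1, Finset.sum_coe_sort S (fun k => s k)]
  ring

theorem fs_c2 (S : Finset α) (s : α → K) (hj : 2 ≤ S.card) :
    2 * (∏ k ∈ S, (X - C (s k))).coeff (S.card - 2) = (∑ k ∈ S, s k) ^ 2 - ∑ k ∈ S, s k ^ 2 := by
  classical
  have h := esymm2 (fun k : S => s k)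
  rw [Finset.sum_coe_sort S (fun k => s k), Finset.sum_coe_sort S (fun k => s k ^ 2)] at h
  rw [fs_coeff S s hj, ← h]
  ring

theorem fs_c3 (S : Finset α) (s : α → K) (hj : 3 ≤ S.card) :
    6 * (∏ k ∈ S, (X - C (s k))).coeff (S.card - 3) = - ((∑ k ∈ S, s k) ^ 3
      - 3 * (∑ k ∈ S, s k) * (∑ k ∈ S, s k ^ 2) + 2 * ∑ k ∈ S, s k ^ 3) := by
  classical
  have h := esymm3 (fun k : S => s k)
  rw [Finset.sum_coe_sort S (fun k => s k), Finset.sum_coe_sort S (fun k => s k ^ 2),
    Finset.sum_coe_sort S (fun k => s k ^ 3)] at h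
  rw [fs_coeff S s hj, ← h]
  ring

end

end Pool.Agent.Q23.CH
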