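import Pool.Agent.Q23.CH.Newt
import Pool.Agent.Helper184.Chapman

/-!
# The polynomial with the roots `χ(k) ψ(k)`
-/

set_option autoImplicit false
set_option linter.unusedSectionVars false
set_option linter.unusedVariables false

namespace Pool.Agent.Q23.CH

open Finset Polynomial Pool.Agent.Helper184.Chapman

variable {p : ℕ} [Fact p.Prime] {K : Type*} [Field K]

/-- the roots -/
noncomputable def sk (ψ : AddChar (ZMod p) K) (k : ZMod p) : K := chi p K k * ψ k

/-- the polynomial -/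
noncomputable def PP (ψ : AddChar (ZMod p) K) : K[X] := ∏ k ∈ univ.erase (0 : ZMod p), (X - C (sk ψ k))

lemma psi_pow (ψ : AddChar (ZMod p) K) (k : ZMod p) (n : ℕ) : ψ k ^ n = ψ ((n : ZMod p) * k) := by
  rw [← AddChar.map_nsmul_eq_pow, nsmul_eq_mul]

lemma sk_even (ψ : AddChar (ZMod p) K) {k : ZMod p} (hk : k ≠ 0) (n : ℕ) :
    sk ψ k ^ (2 * n) = ψ k ^ (2 * n) := by
  have e1 := chi_sq (K := K) hk
  rw [pow_mul, pow_mul, sk]
  congr 1
  linear_combination (ψ k ^ 2) * e1

lemma sk_odd (ψ : AddChar (ZMod p) K) {k : ZMod p} (hk : k ≠ 0) (n : ℕ) :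
    sk ψ k ^ (2 * n + 1) = chi p K k * ψ k ^ (2 * n + 1) := by
  rw [pow_succ, sk_even ψ hk, pow_succ, sk]; ring

lemma two_ne_p (h3 : p % 4 = 3) : (2 : ZMod p) ≠ 0 := by
  intro h
  have : ((2 : ℕ) : ZMod p) = 0 := by exact_mod_cast h
  rw [ZMod.natCast_eq_zero_iff] at this
  have := (Nat.prime_dvd_prime_iff_eq (Fact.out : p.Prime) Nat.prime_two).mp this
  omega

lemma card_erase {m : ℕ} (hm : p = 2 * m + 1) : (univ.erase (0 : ZMod p)).card = 2 * m := by
  rw [Finset.card_erase_of_mem (Finset.mem_univ _), Finset.card_univ, ZMod.card]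
  omega

lemma sk_inj (h3 : p % 4 = 3) (ψ : AddChar (ZMod p) K) (hψ : ψ.IsPrimitive) :
    Set.InjOn (sk ψ) (univ.erase (0 : ZMod p)) := by
  intro k hk l hl hkl
  have hk0 : k ≠ 0 := by simpa using hk
  have hl0 : l ≠ 0 := by simpa using hl
  have h1 := sk_even ψ hk0 1
  have h2 := sk_even ψ hl0 1
  rw [hkl, h2] at h1
  rw [mul_one, psi_pow, psi_pow] at h1
  have e : ψ ((2 : ℕ) * k - (2 : ℕ) * l) = 1 := by
    rw [AddChar.map_sub_eq_div, h1, div_self]
    intro h0
    have := AddChar.map_zero_eq_one ψ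
    rw [← add_neg_cancel (((2 : ℕ) : ZMod p) * k), AddChar.map_add_eq_mul, h0, zero_mul] at this
    exact zero_ne_one this
  have e3 := (hψ.zmod_char_eq_one_iff p _).mp e
  have e4 : 2 * (k - l) = 0 := by push_cast at e3; linear_combination e3
  rcases mul_eq_zero.mp e4 with h | h
  · exact absurd h (two_ne_p h3)
  · exact sub_eq_zero.mp h

lemma PP_monic (ψ : AddChar (ZMod p) K) : (PP ψ).Monic :=
  monic_prod_of_monic _ _ (fun k _ => monic_X_sub_C _)

lemma PP_deg {m : ℕ} (hm : p = 2 * m + 1) (ψ : AddChar (ZMod p) K) : (PP ψ).natDegree = 2 * m := by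
  rw [PP, natDegree_prod_of_monic _ _ (fun k _ => monic_X_sub_C _)]
  simp [card_erase hm]

lemma PP_top {m : ℕ} (hm : p = 2 * m + 1) (ψ : AddChar (ZMod p) K) : (PP ψ).coeff (2 * m) = 1 := by
  have := (PP_monic ψ).coeff_natDegree
  rwa [PP_deg hm] at this

lemma PP_root (ψ : AddChar (ZMod p) K) {k : ZMod p} (hk : k ≠ 0) : (PP ψ).eval (sk ψ k) = 0 := by
  rw [PP, eval_prod]
  exact Finset.prod_eq_zero (mem_erase.2 ⟨hk, mem_univ _⟩) (by simp)

lemma sum_erase_eq (f : ZMod p → K) (h0 : f 0 = 0) : ∑ k ∈ univ.erase (0 : ZMod p), f k = ∑ k, f k := by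
  rw [← Finset.add_sum_erase univ _ (Finset.mem_univ (0 : ZMod p)), h0, zero_add]

lemma sum_sk (ψ : AddChar (ZMod p) K) :
    ∑ k ∈ univ.erase (0 : ZMod p), sk ψ k = gaussSum (chi p K) ψ := by
  rw [sum_erase_eq _ (by rw [sk, MulChar.map_zero, zero_mul]), gaussSum]
  rfl

lemma sum_sk_sq (h3 : p % 4 = 3) (ψ : AddChar (ZMod p) K) (hψ : ψ.IsPrimitive) :
    ∑ k ∈ univ.erase (0 : ZMod p), sk ψ k ^ 2 = -1 := by
  have h1 : ∀ k ∈ univ.erase (0 : ZMod p), sk ψ k ^ 2 = ψ (2 * k) := by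
    intro k hk
    have := sk_even ψ (mem_erase.1 hk).1 1
    rw [mul_one, psi_pow] at this
    push_cast at this
    exact this
  rw [Finset.sum_congr rfl h1]
  have h2 := Finset.add_sum_erase univ (fun k => ψ (2 * k)) (Finset.mem_univ (0 : ZMod p))
  have h3' : ∑ k : ZMod p, ψ (2 * k) = 0 := by
    have := AddChar.sum_mulShift (R' := K) (2 : ZMod p) hψ
    rw [if_neg (two_ne_p h3), Nat.cast_zero] at this
    rw [← this]
    apply Finset.sum_congr rfl
    intro k _
    rw [mul_comm]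
  rw [h3'] at h2
  simp only [mul_zero, AddChar.map_zero_eq_one] at h2
  linear_combination h2

lemma sum_sk_cube (h3 : p % 4 = 3) (h2 : (2 : K) ≠ 0) (ψ : AddChar (ZMod p) K) :
    ∑ k ∈ univ.erase (0 : ZMod p), sk ψ k ^ 3 = chi p K 3 * gaussSum (chi p K) ψ := by
  rw [← gauss_shift h3 h2 ψ 3]
  rw [← sum_erase_eq (fun k => chi p K k * ψ (3 * k)) (by rw [MulChar.map_zero, zero_mul])]
  apply Finset.sum_congr rfl
  intro k hk
  have := sk_odd ψ (mem_erase.1 hk).1 1
  rw [psi_pow] at this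
  push_cast at this
  exact this

lemma gauss_sq (h3 : p % 4 = 3) (h2 : (2 : K) ≠ 0) (ψ : AddChar (ZMod p) K) (hψ : ψ.IsPrimitive) :
    gaussSum (chi p K) ψ ^ 2 = -(p : K) := by
  have e := gaussSum_sq (χ := chi p K) (chi_ne_one h3 h2) chi_quad hψ
  rw [chi_neg h3, ZMod.card] at e
  rw [e]; simp

lemma PP_c1 {m : ℕ} (hm : p = 2 * m + 1) (hm1 : 1 ≤ m) (ψ : AddChar (ZMod p) K) :
    (PP ψ).coeff (2 * m - 1) = - gaussSum (chi p K) ψ := by
  have h := fs_c1 (univ.erase (0 : ZMod p)) (sk ψ) (by rw [card_erase hm]; omega)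
  rw [card_erase hm, sum_sk] at h
  exact h

lemma PP_c2 (h3 : p % 4 = 3) (h2 : (2 : K) ≠ 0) {m : ℕ} (hm : p = 2 * m + 1) (hm1 : 1 ≤ m)
    (ψ : AddChar (ZMod p) K) (hψ : ψ.IsPrimitive) :
    (PP ψ).coeff (2 * m - 2) = - (m : K) := by
  have h := fs_c2 (univ.erase (0 : ZMod p)) (sk ψ) (by rw [card_erase hm]; omega)
  rw [card_erase hm, sum_sk, sum_sk_sq h3 ψ hψ, gauss_sq h3 h2 ψ hψ] at h
  apply mul_left_cancel₀ h2
  rw [PP, h]
  have hp : (p : K) = 2 * m + 1 := by rw [hm]; push_cast; ring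
  rw [hp]
  ring

lemma PP_c3 (h3 : p % 4 = 3) (h2 : (2 : K) ≠ 0) {m : ℕ} (hm : p = 2 * m + 1) (hm1 : 2 ≤ m)
    (ψ : AddChar (ZMod p) K) (hψ : ψ.IsPrimitive) :
    6 * (PP ψ).coeff (2 * m - 3) = gaussSum (chi p K) ψ * (p - 3 - 2 * chi p K 3) := by
  have h := fs_c3 (univ.erase (0 : ZMod p)) (sk ψ) (by rw [card_erase hm]; omega)
  rw [card_erase hm, sum_sk, sum_sk_sq h3 ψ hψ, sum_sk_cube h3 h2] at h
  have hg := gauss_sq h3 h2 ψ hψ
  rw [PP, h]
  linear_combination - gaussSum (chi p K) ψ * hg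

lemma PP_recip (h3 : p % 4 = 3) {m : ℕ} (hm : p = 2 * m + 1) (ψ : AddChar (ZMod p) K) :
    PP ψ = - ∏ k ∈ univ.erase (0 : ZMod p), (1 + C (sk ψ k) * X) := by
  have hp2 : p ≠ 2 := by rintro rfl; omega
  have h1 : ∏ k ∈ univ.erase (0 : ZMod p), (1 + C (sk ψ k) * X)
      = ∏ k ∈ univ.erase (0 : ZMod p), (1 + C (sk ψ (-k)) * X) := by
    apply Finset.prod_bij (fun k _ => -k)
    · intro k hk; simpa using hk
    · intro k _ l _ h; exact neg_injective h
    · intro k hk; exact ⟨-k, by simpa using hk, by simp⟩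
    · intro k _; simp
  have h2 : ∀ k ∈ univ.erase (0 : ZMod p), (1 + C (sk ψ (-k)) * X : K[X])
      = C ((-1) * chi p K k * ψ (-k)) * (X - C (sk ψ k)) := by
    intro k hk
    have hk0 := (mem_erase.1 hk).1
    have e5 := chi_sq (K := K) hk0
    have e6 : ψ (-k) * ψ k = 1 := by
      rw [← AddChar.map_add_eq_mul]; simp
    have e7 : sk ψ (-k) = (-1) * chi p K k * ψ (-k) := by
      rw [sk, chi_neg h3]; ring
    have e8 : (1 : K[X]) = - (C ((-1) * chi p K k * ψ (-k)) * C (sk ψ k)) := by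
      rw [← C_mul, ← C_neg, sk, ← C_1]
      congr 1
      linear_combination (-1 : K) * e5 - chi p K k * chi p K k * e6
    rw [e7]
    linear_combination e8
  rw [h1, Finset.prod_congr rfl h2, Finset.prod_mul_distrib, ← map_prod, Finset.prod_mul_distrib,
    Finset.prod_mul_distrib, Finset.prod_const, card_erase hm, prod_chi h3, prod_psi hp2]
  rw [PP]
  simp

lemma PP_coeff_zero (h3 : p % 4 = 3) {m : ℕ} (hm : p = 2 * m + 1) (ψ : AddChar (ZMod p) K) :
    (PP ψ).coeff 0 = -1 := by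
  rw [PP_recip h3 hm, coeff_neg, coeff_zero_eq_eval_zero, eval_prod]
  simp

lemma PP_coeff_one (h3 : p % 4 = 3) {m : ℕ} (hm : p = 2 * m + 1) (ψ : AddChar (ZMod p) K) :
    (PP ψ).coeff 1 = - gaussSum (chi p K) ψ := by
  rw [PP_recip h3 hm, coeff_neg, ← sum_sk]
  congr 1
  have h1 : (∏ k ∈ univ.erase (0 : ZMod p), (1 + C (sk ψ k) * X)).coeff 1
      = (derivative (∏ k ∈ univ.erase (0 : ZMod p), (1 + C (sk ψ k) * X))).eval 0 := by
    rw [← coeff_zero_eq_eval_zero, coeff_derivative]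
    simp
  rw [h1, derivative_prod_finset, eval_finsetSum]
  apply Finset.sum_congr rfl
  intro k _
  rw [eval_mul, eval_prod]
  simp

lemma PP_neg_one (h3 : p % 4 = 3) {m : ℕ} (hm : p = 2 * m + 1) (ψ : AddChar (ZMod p) K) :
    (PP ψ).eval (-1) = - (PP ψ).eval 1 := by
  conv_lhs => rw [PP_recip h3 hm]
  rw [eval_neg, eval_prod, PP, eval_prod]
  congr 1
  apply Finset.prod_congr rfl
  intro k _
  simp
  ring

lemma PP_one_sq (h3 : p % 4 = 3) {m : ℕ} (hm : p = 2 * m + 1) (hpK : (p : K) ≠ 0)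
    (ψ : AddChar (ZMod p) K) (hψ : ψ.IsPrimitive) :
    (PP ψ).eval 1 ^ 2 = -(p : K) := by
  have h1 : (PP ψ).eval 1 * (PP ψ).eval (-1) = p := by
    rw [PP, eval_prod, eval_prod, ← Finset.prod_mul_distrib]
    have h2 : ∀ k ∈ univ.erase (0 : ZMod p), (X - C (sk ψ k)).eval 1 * (X - C (sk ψ k)).eval (-1)
        = (-1) * (1 - ψ (2 * k)) := by
      intro k hk
      have := sk_even ψ (mem_erase.1 hk).1 1
      rw [mul_one, psi_pow] at this
      push_cast at this
      rw [← this]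
      simp
      ring
    rw [Finset.prod_congr rfl h2, Finset.prod_mul_distrib, Finset.prod_const, card_erase hm]
    have h5 : ∏ k ∈ univ.erase (0 : ZMod p), (1 - ψ (2 * k)) =
        ∏ k ∈ univ.erase (0 : ZMod p), (1 - ψ k) := by
      apply Finset.prod_bij (fun k _ => 2 * k)
      · intro k hk
        rw [mem_erase] at hk ⊢
        exact ⟨mul_ne_zero (two_ne_p h3) hk.1, mem_univ _⟩
      · intro k _ l _ h
        exact mul_left_cancel₀ (two_ne_p h3) h
      · intro k hk
        refine ⟨2⁻¹ * k, ?_, ?_⟩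
        · rw [mem_erase] at hk ⊢
          exact ⟨mul_ne_zero (inv_ne_zero (two_ne_p h3)) hk.1, mem_univ _⟩
        · rw [← mul_assoc, mul_inv_cancel₀ (two_ne_p h3), one_mul]
      · intro k _; rfl
    rw [h5]
    -- the polynomial `∏ (X - ψ k) = 1 + X + ... + X^(p-1)`
    have h6 : ∏ k : ZMod p, (X - C (ψ k)) = X ^ p - 1 := by
      have hinj : Function.Injective (fun k : ZMod p => ψ k) := by
        intro k l h
        simp only at h
        have e : ψ (k - l) = 1 := by
          rw [AddChar.map_sub_eq_div, h, div_self]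
          intro h0
          have := AddChar.map_zero_eq_one ψ
          rw [← add_neg_cancel l, AddChar.map_add_eq_mul, h0, zero_mul] at this
          exact zero_ne_one this
        exact sub_eq_zero.1 ((hψ.zmod_char_eq_one_iff p _).mp e)
      have hp0 : 0 < p := (Fact.out : p.Prime).pos
      have hdeg : (∏ k : ZMod p, (X - C (ψ k)) - (X ^ p - 1) : K[X]).natDegree < p := by
        have hmon : (∏ k : ZMod p, (X - C (ψ k)) : K[X]).Monic :=
          monic_prod_of_monic _ _ (fun k _ => monic_X_sub_C _)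
        have hdeg1 : (∏ k : ZMod p, (X - C (ψ k)) : K[X]).natDegree = p := by
          rw [natDegree_prod_of_monic _ _ (fun k _ => monic_X_sub_C _)]
          simp
        have hmon2 : (X ^ p - 1 : K[X]).Monic := by
          have := monic_X_pow_sub_C (1 : K) hp0.ne'
          rwa [C_1] at this
        have hdeg2 : (X ^ p - 1 : K[X]).natDegree = p := by
          have := natDegree_X_pow_sub_C (n := p) (r := (1 : K))
          rwa [C_1] at this
        have h7 := degree_sub_lt_left (p := (∏ k : ZMod p, (X - C (ψ k)) : K[X])) (q := X ^ p - 1) (by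
          rw [degree_eq_natDegree hmon.ne_zero, degree_eq_natDegree hmon2.ne_zero, hdeg1, hdeg2])
          hmon.ne_zero (by rw [hmon.leadingCoeff, hmon2.leadingCoeff])
        by_cases h8 : (∏ k : ZMod p, (X - C (ψ k)) - (X ^ p - 1) : K[X]) = 0
        · rw [h8]; simpa using hp0
        · rw [degree_eq_natDegree h8, degree_eq_natDegree hmon.ne_zero, hdeg1] at h7
          exact_mod_cast h7
      have h9 : (∏ k : ZMod p, (X - C (ψ k)) - (X ^ p - 1) : K[X]) = 0 := by
        classical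
        apply eq_zero_of_natDegree_lt_card_of_eval_eq_zero' _ (univ.image (fun k : ZMod p => ψ k))
        · intro x hx
          obtain ⟨k, _, rfl⟩ := mem_image.1 hx
          rw [eval_sub, eval_prod, Finset.prod_eq_zero (mem_univ k) (by simp), eval_sub, eval_pow,
            eval_X, eval_one, psi_pow, CharP.cast_eq_zero, zero_mul, AddChar.map_zero_eq_one]
          ring
        · rw [Finset.card_image_of_injective _ hinj, card_univ, ZMod.card]
          exact hdeg
      exact sub_eq_zero.1 h9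
    have h7 := congrArg derivative h6
    rw [derivative_prod_finset] at h7
    have h8 := congrArg (eval 1) h7
    rw [eval_finsetSum] at h8
    rw [Finset.sum_eq_single (0 : ZMod p)] at h8
    · rw [eval_mul, eval_prod] at h8
      simp only [eval_sub, eval_X, eval_C, derivative_sub, derivative_X, derivative_C, sub_zero,
        eval_one, mul_one, derivative_X_pow, derivative_one, eval_mul, eval_pow, one_pow] at h8
      rw [h8]
      simp
    · intro k _ hk
      rw [eval_mul, eval_prod, Finset.prod_eq_zero (i := (0 : ZMod p)), zero_mul]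
      · rw [mem_erase]; exact ⟨Ne.symm hk, mem_univ _⟩
      · simp
    · intro h; exact absurd (mem_univ _) h
  rw [PP_neg_one h3 hm] at h1
  linear_combination -h1

end Pool.Agent.Q23.CH
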