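import Pool.Agent.Q23.CH.Struct
import Pool.Agent.Q23.HS.Poly

/-!
# Skew-symmetric matrices, a principal minor, and a constant added to all its entries
-/

set_option autoImplicit false
set_option linter.unusedSectionVars false
set_option linter.unusedVariables false

namespace Pool.Agent.Q23.CH

open Finset Matrix Pool.Agent.Helper184.Chapman

lemma skew_dot {N : ℕ} (T : Matrix (Fin N) (Fin N) ℝ) (hT : Tᵀ = -T) (u v : Fin N → ℝ) :
    dotProduct u (T.mulVec v) = - dotProduct v (T.mulVec u) := by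
  have e1 : dotProduct u (T.mulVec v) = dotProduct (T.transpose.mulVec u) v := by
    rw [Matrix.mulVec_transpose, Matrix.dotProduct_mulVec]
  rw [e1, hT, Matrix.neg_mulVec, neg_dotProduct, dotProduct_comm]

theorem skew_minor {N : ℕ} (T : Matrix (Fin (N + 1)) (Fin (N + 1)) ℝ) (hT : Tᵀ = -T)
    (hd : T.det ≠ 0) (v : Fin (N + 1) → ℝ) (hv : T.mulVec v = Pi.single 0 1) (t : ℝ) :
    (Matrix.of fun i j : Fin N => T i.succ j.succ + t).det = T.det * (t * (∑ j, v j) ^ 2) := by
  classical
  have hTu : IsUnit T.det := isUnit_iff_ne_zero.2 hd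
  set o : Fin (N + 1) → ℝ := fun _ => 1 with ho
  set z : Fin (N + 1) → ℝ := T⁻¹.mulVec o with hz
  have hTz : T.mulVec z = o := by
    rw [hz, Matrix.mulVec_mulVec, Matrix.mul_nonsing_inv _ hTu, Matrix.one_mulVec]
  have hdo : ∀ u : Fin (N + 1) → ℝ, dotProduct u o = ∑ j, u j := by
    intro u
    simp [dotProduct, ho]
  have hsz : ∑ j, z j = 0 := by
    have h := skew_dot T hT z z
    rw [hTz, hdo] at h
    linarith
  have hv0 : v 0 = 0 := by
    have h := skew_dot T hT v v
    rw [hv] at h
    simp at h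
    linarith
  have hz0 : z 0 = - ∑ j, v j := by
    have h := skew_dot T hT z v
    rw [hv, hTz, hdo] at h
    simpa using h
  set σ : ℝ := ∑ j, v j with hσ
  set A : Matrix (Fin (N + 1)) (Fin (N + 1)) ℝ := Matrix.of fun i j => T i j + t with hA
  set w : Fin (N + 1) → ℝ := fun j => v j + (-(t * σ)) * z j with hw
  have hAw : A.mulVec w = Pi.single 0 1 := by
    funext i
    have h1 : A.mulVec w i = T.mulVec v i + (-(t * σ)) * T.mulVec z i + t * (∑ j, v j)
        + t * (-(t * σ)) * ∑ j, z j := by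
      simp only [Matrix.mulVec, dotProduct, hA, hw, Matrix.of_apply, Finset.mul_sum,
        ← Finset.sum_add_distrib]
      apply Finset.sum_congr rfl
      intro j _
      ring
    rw [h1, hv, hTz, hsz, ho, ← hσ]
    ring
  have hAd : A.det = T.det := by
    set U : Matrix (Fin (N + 1)) (Fin 1) ℝ := Matrix.of fun _ _ => 1 with hU
    set V : Matrix (Fin 1) (Fin (N + 1)) ℝ := Matrix.of fun _ _ => t with hV
    have h1 : A = T + U * V := by
      ext i j
      rw [Matrix.add_apply, Matrix.mul_apply]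
      simp [hA, hU, hV]
    rw [h1, Matrix.det_add_mul U V hTu, Matrix.det_fin_one, Matrix.add_apply, Matrix.mul_assoc,
      Matrix.mul_apply]
    have h2 : ∀ j, (T⁻¹ * U) j 0 = z j := by
      intro j
      rw [hz, Matrix.mul_apply]
      simp [Matrix.mulVec, dotProduct, hU, ho]
    simp only [h2, hV, Matrix.of_apply]
    rw [← Finset.mul_sum, hsz]
    simp
  have hAu : IsUnit A.det := by rw [hAd]; exact hTu
  have h3 : A⁻¹ 0 0 = w 0 := by
    have h4 : A⁻¹.mulVec (Pi.single 0 1) = w := by
      rw [← hAw, Matrix.mulVec_mulVec, Matrix.nonsing_inv_mul _ hAu, Matrix.one_mulVec]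
    have h5 := congrFun h4 0
    rw [Matrix.mulVec_single_one] at h5
    exact h5
  have h6 : A.adjugate 0 0 = A.det * w 0 := by
    rw [← h3, Matrix.inv_def, Matrix.smul_apply, smul_eq_mul, Ring.inverse_eq_inv',
      ← mul_assoc, mul_inv_cancel₀ hAu.ne_zero, one_mul]
  have h7 := Matrix.adjugate_fin_succ_eq_det_submatrix A 0 0
  rw [h6] at h7
  have h8 : (Matrix.of fun i j : Fin N => T i.succ j.succ + t)
      = A.submatrix (Fin.succAbove 0) (Fin.succAbove 0) := by
    ext i j
    simp [hA]
  rw [h8]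
  simp only [Fin.val_zero, add_zero, pow_zero, one_mul] at h7
  rw [← h7, hAd, hw]
  simp only
  rw [hv0, hz0]
  ring

variable {p : ℕ} [Fact p.Prime]

/-- the Toeplitz matrix plus a constant, over any commutative ring -/
noncomputable def TX (p : ℕ) [Fact p.Prime] (n : ℕ) {R : Type*} [CommRing R] (x : R) :
    Matrix (Fin n) (Fin n) R :=
  Matrix.of fun i j => x + ((quadraticChar (ZMod p) (((i : ℕ) : ZMod p) - ((j : ℕ) : ZMod p)) : ℤ) : R)

lemma map_TX (n : ℕ) {R S : Type*} [CommRing R] [CommRing S] (f : R →+* S)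
    (x : R) : f (TX p n x).det = (TX p n (f x)).det := by
  rw [f.map_det]
  congr 1
  ext j k
  simp [TX]

lemma T_skew (h3 : p % 4 = 3) (n : ℕ) : (T p ℝ n)ᵀ = - T p ℝ n := by
  ext i j
  have := chi_neg (K := ℝ) h3 (((i : ℕ) : ZMod p) - ((j : ℕ) : ZMod p))
  rw [neg_sub, chi_apply, chi_apply] at this
  simpa [T] using this

theorem det_T_one (h3 : p % 4 = 3) (n : ℕ) (habs : (T p ℤ n).det.natAbs = 1) :
    (T p ℝ n).det = 1 := by
  have hnn : 0 ≤ (T p ℤ n).det := by
    have h := det_skew_nonneg (T p ℝ n) (T_skew h3 n)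
    rw [← det_cast] at h
    exact_mod_cast h
  have h1 : (T p ℤ n).det = 1 := by omega
  rw [← det_cast, h1]
  simp

/-- the determinant of `x + (j-k/p)` from the sum of the first column of the inverse -/
theorem det_TX_real (h3 : p % 4 = 3) (n : ℕ) (habs : (T p ℤ (n + 1)).det.natAbs = 1)
    (q : ℝ) (hq : ∀ v : ℕ → ℝ, (∀ i ∈ range (n + 1), ∑ j ∈ range (n + 1),
      chi p ℝ ((i : ZMod p) - (j : ZMod p)) * v j = if i = 0 then 1 else 0) →
      (∑ j ∈ range (n + 1), v j) ^ 2 = q) (x : ℝ) :
    (TX p n x).det = q * x := by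
  classical
  have hd := det_T_one h3 (n + 1) habs
  have hdu : IsUnit (T p ℝ (n + 1)).det := by rw [hd]; exact isUnit_one
  set v : Fin (n + 1) → ℝ := (T p ℝ (n + 1))⁻¹.mulVec (Pi.single 0 1) with hv
  have hTv : (T p ℝ (n + 1)).mulVec v = Pi.single 0 1 := by
    rw [hv, Matrix.mulVec_mulVec, Matrix.mul_nonsing_inv _ hdu, Matrix.one_mulVec]
  have h1 := skew_minor (T p ℝ (n + 1)) (T_skew h3 (n + 1)) (by rw [hd]; exact one_ne_zero) v hTv x
  have h2 : (Matrix.of fun i j : Fin n => T p ℝ (n + 1) i.succ j.succ + x) = TX p n x := by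
    ext i j
    simp only [T, TX, Matrix.of_apply, Fin.val_succ]
    push_cast
    rw [add_sub_add_right_eq_sub, add_comm]
  rw [h2, hd, one_mul] at h1
  rw [h1]
  have h4 : ∑ j, v j = ∑ j ∈ range (n + 1), ext v j := by
    rw [← Fin.sum_univ_eq_sum_range]
    simp only [ext_val]
  rw [h4, hq (ext v)]
  · ring
  · intro i hi
    have h5 := congrFun hTv ⟨i, Finset.mem_range.1 hi⟩
    rw [mulVec_eq, Pi.single_apply] at h5
    rw [h5]
    simp [Fin.ext_iff]

theorem det_TX_ring (n : ℕ) (q : ℤ) (hq : ∀ x : ℝ, (TX p n x).det = q * x)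
    {R : Type*} [CommRing R] (x : R) : (TX p n x).det = (q : R) * x := by
  have hP : (TX p n (MvPolynomial.X 0 : MvPolynomial (Fin 1) ℤ)).det
      = (q : MvPolynomial (Fin 1) ℤ) * MvPolynomial.X 0 := by
    apply Pool.Agent.Q23.HS.mv_ext
    intro v
    rw [map_TX]
    simp only [map_mul, map_intCast, MvPolynomial.coe_eval₂Hom, MvPolynomial.eval₂_X]
    exact hq _
  have h := congrArg (MvPolynomial.eval₂Hom (Int.castRingHom R) ![x]) hP
  rw [map_TX] at h
  simp only [map_mul, map_intCast, MvPolynomial.coe_eval₂Hom, MvPolynomial.eval₂_X] at h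
  exact h

/-- a primitive additive character with values in `ℂ` -/
lemma std_prim (p : ℕ) [Fact p.Prime] : (ZMod.stdAddChar (N := p)).IsPrimitive :=
  ZMod.isPrimitive_stdAddChar p

theorem half (h3 : p % 4 = 3) {m : ℕ} (hm : p = 2 * m + 1) {R : Type*} [CommRing R] (x : R) :
    (TX p m x).det = x := by
  have h := det_TX_ring (p := p) m 1 (by
    intro y
    rw [Int.cast_one]
    apply det_TX_real h3 m (det_unit (m + 1) (fun l _ v hv => sys_mod h3 m hm l v hv))
    intro v hv
    have h2 := sum_zero (K := ℂ) h3 hm two_ne_zero (by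
      exact_mod_cast (Fact.out : p.Prime).ne_zero) (ZMod.stdAddChar (N := p)) (std_prim p)
      (fun j => ((v j : ℝ) : ℂ)) 1 (by
        intro i hi
        have := congrArg (fun t : ℝ => (t : ℂ)) (hv i hi)
        push_cast at this
        have e1 : ((if i = 0 then 1 else 0 : ℝ) : ℂ) = (if i = 0 then 1 else 0 : ℂ) := by
          split_ifs <;> simp
        rw [← e1, ← this]
        apply Finset.sum_congr rfl
        intro j _
        rw [chi_apply, chi_apply]
        push_cast
        rfl)
    rw [one_pow] at h2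
    rw [← Complex.ofReal_sum, ← Complex.ofReal_pow] at h2
    exact_mod_cast h2) x
  rw [h]
  simp

theorem short (h3 : p % 4 = 3) {m : ℕ} (hm : p = 2 * m + 1) (hm3 : 3 ≤ m) (q : ℤ)
    (hq : 3 * q = p - 3 + quadraticChar (ZMod p) 3) {R : Type*} [CommRing R] (x : R) :
    (TX p (m - 2) x).det = (q : R) ^ 2 * x := by
  have h := det_TX_ring (p := p) (m - 2) (q ^ 2) (by
    intro y
    apply det_TX_real h3 (m - 2)
    · rw [show m - 2 + 1 = m - 1 by omega]
      exact det_unit (m - 1) (fun l _ v hv => mid_mod h3 m hm (by omega) l v hv)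
    intro v hv
    rw [show m - 2 + 1 = m - 1 by omega] at hv ⊢
    have h2 := sum_two (K := ℂ) h3 hm hm3 two_ne_zero three_ne_zero (by
      exact_mod_cast (Fact.out : p.Prime).ne_zero) (ZMod.stdAddChar (N := p)) (std_prim p)
      (fun j => ((v j : ℝ) : ℂ)) 1 (by
        intro i hi
        have := congrArg (fun t : ℝ => (t : ℂ)) (hv i hi)
        push_cast at this
        have e1 : ((if i = 0 then 1 else 0 : ℝ) : ℂ) = (if i = 0 then 1 else 0 : ℂ) := by
          split_ifs <;> simp
        rw [← e1, ← this]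
        apply Finset.sum_congr rfl
        intro j _
        rw [chi_apply, chi_apply]
        push_cast
        rfl)
    have h3' : ((p : ℂ) - 3 + chi p ℂ 3) = 3 * q := by
      rw [chi_apply]
      exact_mod_cast hq.symm
    rw [h3', ← Complex.ofReal_sum] at h2
    have h4 : (9 : ℂ) * (((∑ j ∈ range (m - 1), v j : ℝ) : ℂ) ^ 2 - (q : ℂ) ^ 2) = 0 := by
      linear_combination h2
    rcases mul_eq_zero.1 h4 with h5 | h5
    · norm_num at h5
    · have h6 := sub_eq_zero.1 h5
      push_cast
      exact_mod_cast h6) x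
  rw [h]
  push_cast
  ring

end Pool.Agent.Q23.CH
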