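import Pool.Agent.Q23.CH.PP

/-!
# Toeplitz systems of the quadratic character and the polynomial `PP`
-/

set_option autoImplicit false
set_option linter.unusedSectionVars false
set_option linter.unusedVariables false

namespace Pool.Agent.Q23.CH

open Finset Polynomial Pool.Agent.Helper184.Chapman

variable {p : ℕ} [Fact p.Prime] {K : Type*} [Field K]

lemma sum_zmod (n l : ℕ) (hnl : p = n + l) (f : ZMod p → K) :
    ∑ i : ZMod p, f i = ∑ i ∈ range n, f (i : ZMod p) + ∑ i ∈ range l, f ((n + i : ℕ) : ZMod p) := by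
  have h1 : ∑ i : ZMod p, f i = ∑ i ∈ range p, f (i : ZMod p) := by
    symm
    apply Finset.sum_bij (fun (i : ℕ) _ => (i : ZMod p))
    · intro a _; simp
    · intro a ha b hb hab
      rw [Finset.mem_range] at ha hb
      have := congrArg ZMod.val hab
      rwa [ZMod.val_natCast_of_lt ha, ZMod.val_natCast_of_lt hb] at this
    · intro b _
      exact ⟨b.val, by simpa using ZMod.val_lt b, by simp⟩
    · intro a _; rfl
  have h3 : ∑ i ∈ range p, f (i : ZMod p) = ∑ i ∈ range (n + l), f (i : ZMod p) := by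
    rw [← hnl]
  rw [h1, h3, Finset.sum_range_add]

theorem struct (h3 : p % 4 = 3) {m : ℕ} (hm : p = 2 * m + 1)
    (h2 : (2 : K) ≠ 0) (hpK : (p : K) ≠ 0) (ψ : AddChar (ZMod p) K) (hψ : ψ.IsPrimitive)
    {n r : ℕ} (hn : n + r = m + 1) (hn0 : 0 < n)
    (v : ℕ → K) (c : K)
    (hv : ∀ i ∈ range n,
      ∑ j ∈ range n, chi p K ((i : ZMod p) - (j : ZMod p)) * v j = if i = 0 then c else 0) :
    ∃ Q : K[X], Q.natDegree ≤ 2 * r + 1 ∧
      Q.coeff (2 * r + 1) = (p : K)⁻¹ * chi p K 2 * gaussSum (chi p K) ψ * c ∧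
      Q.eval 1 + Q.eval (-1) = 0 ∧
      ∑ j ∈ range n, v j = (PP ψ).eval 1 * Q.eval 1 ∧
      ∀ i, (PP ψ * Q).coeff (2 * i) = if r ≤ i ∧ i < n + r then v (i - r) else 0 := by
  classical
  have hp2 : p ≠ 2 := by rintro rfl; omega
  set g : K := gaussSum (chi p K) ψ with hg
  set xval : ZMod p → K := fun k => ∑ j ∈ range n, v j * ψ k ^ (2 * j) with hx
  set h : ZMod p → K := fun k => chi p K k * xval k with hh
  set hhat : ZMod p → K := fun i => (p : K)⁻¹ * ∑ k' : ZMod p, h k' * ψ (-(2 * i * k')) with hhh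
  set a : K := - (p : K)⁻¹ * chi p K 2 * g * c with ha
  have hpow : ∀ (k : ZMod p) (n : ℕ), ψ k ^ n = ψ ((n : ZMod p) * k) := psi_pow ψ
  -- values of the transform
  have hhat_eq : ∀ i : ZMod p, hhat i =
      - (p : K)⁻¹ * chi p K 2 * g * ∑ j ∈ range n, chi p K (i - (j : ZMod p)) * v j := by
    intro i
    have e1 : ∑ k' : ZMod p, h k' * ψ (-(2 * i * k')) =
        ∑ j ∈ range n, v j * (chi p K (2 * ((j : ZMod p) - i)) * g) := by
      have : ∀ k' : ZMod p, h k' * ψ (-(2 * i * k')) =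
          ∑ j ∈ range n, v j * (chi p K k' * ψ (2 * ((j : ZMod p) - i) * k')) := by
        intro k'
        rw [hh, hx]
        simp only
        rw [Finset.mul_sum, Finset.sum_mul]
        apply Finset.sum_congr rfl
        intro j _
        have e2 : ψ (2 * ((j : ZMod p) - i) * k') = ψ k' ^ (2 * j) * ψ (-(2 * i * k')) := by
          rw [hpow, ← AddChar.map_add_eq_mul]
          congr 1
          push_cast
          ring
        rw [e2]; ring
      rw [Finset.sum_congr rfl (fun k' _ => this k'), Finset.sum_comm]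
      apply Finset.sum_congr rfl
      intro j _
      rw [← Finset.mul_sum, gauss_shift h3 h2]
    rw [hhh]
    simp only
    rw [e1, Finset.mul_sum, Finset.mul_sum]
    apply Finset.sum_congr rfl
    intro j _
    have e3 : chi p K (2 * ((j : ZMod p) - i)) = - (chi p K 2 * chi p K (i - (j : ZMod p))) := by
      rw [map_mul, ← neg_sub i (j : ZMod p), chi_neg h3]; ring
    rw [e3]; ring
  have hhat_low : ∀ i ∈ range n, hhat (i : ZMod p) = if i = 0 then a else 0 := by
    intro i hi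
    rw [hhat_eq, hv i hi]
    split_ifs
    · rfl
    · simp
  set y : ℕ → K := fun l => hhat ((n + l : ℕ) : ZMod p) with hy
  have hp0 : ((2 * m + 1 : ℕ) : ZMod p) = 0 := by
    rw [← hm]; simp
  have hinv : ∀ k : ZMod p, ψ k ^ (2 * r) * h k
      = a * ψ k ^ (2 * r) + ∑ l ∈ range (m + r), y l * ψ k ^ (2 * l + 1) := by
    intro k
    have e1 := inversion hp2 hpK ψ hψ h k
    have e2 : ∑ i : ZMod p, hhat i * ψ (2 * i * k) = h k := e1
    rw [← e2, sum_zmod n (m + r) (by omega) (fun i => hhat i * ψ (2 * i * k)), mul_add]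
    congr 1
    · rw [Finset.sum_eq_single 0]
      · rw [hhat_low 0 (by simpa using hn0)]; simp; ring
      · intro b hb hb0
        rw [hhat_low b hb, if_neg hb0, zero_mul]
      · intro h0; exact absurd (mem_range.2 hn0) h0
    · rw [Finset.mul_sum]
      apply Finset.sum_congr rfl
      intro l _
      have e3 : ψ k ^ (2 * r) * ψ (2 * ((n + l : ℕ) : ZMod p) * k) = ψ k ^ (2 * l + 1) := by
        rw [hpow, hpow, ← AddChar.map_add_eq_mul]
        congr 1
        have hn' : ((n : ZMod p)) + r = m + 1 := by exact_mod_cast congrArg (Nat.cast : ℕ → ZMod p) hn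
        push_cast at hp0 ⊢
        linear_combination k * hp0 + 2 * k * hn'
      rw [hy]
      simp only
      linear_combination hhat ((n + l : ℕ) : ZMod p) * e3
  -- the points and the polynomials
  set S : Finset (ZMod p) := univ.erase 0 with hS
  set U : K[X] := ∑ l ∈ range (m + r), C (y l) * X ^ (2 * l + 1) + C a * X ^ (2 * m + 2 * r + 1) with hU
  set W : K[X] := ∑ j ∈ range n, C (v j) * X ^ (2 * (j + r)) - U with hW
  have hWroot : ∀ k ∈ S, W.eval (sk ψ k) = 0 := by
    intro k hk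
    have hk0 : k ≠ 0 := by simpa [hS] using hk
    have e1 := chi_sq (K := K) hk0
    have e2 := hinv k
    have hψp : ψ k ^ (2 * m + 1) = 1 := by
      rw [hpow, hp0, zero_mul, AddChar.map_zero_eq_one]
    have e3 : W.eval (sk ψ k) = ψ k ^ (2 * r) * xval k
        - chi p K k * (∑ l ∈ range (m + r), y l * ψ k ^ (2 * l + 1) + a * ψ k ^ (2 * r)) := by
      rw [hW, hU]
      simp only [eval_sub, eval_add, eval_finsetSum, eval_mul, eval_C, eval_pow, eval_X]
      rw [hx, Finset.mul_sum, mul_add, Finset.mul_sum]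
      congr 1
      · apply Finset.sum_congr rfl
        intro j _
        rw [sk_even ψ hk0]
        ring
      · congr 1
        · apply Finset.sum_congr rfl
          intro l _
          rw [sk_odd ψ hk0]; ring
        · have e4 : 2 * m + 2 * r + 1 = 2 * (m + r) + 1 := by ring
          rw [e4, sk_odd ψ hk0]
          have e5 : ψ k ^ (2 * (m + r) + 1) = ψ k ^ (2 * r) := by
            have : 2 * (m + r) + 1 = (2 * m + 1) + 2 * r := by ring
            rw [this, pow_add, hψp, one_mul]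
          rw [e5]; ring
    have e6 : xval k = chi p K k * h k := by
      rw [hh]; simp only; linear_combination (-xval k) * e1
    rw [e3, e6]
    linear_combination chi p K k * e2
  have hdvd : PP ψ ∣ W := by
    rw [PP]
    apply Finset.prod_dvd_of_coprime
    · intro k hk l hl hkl
      exact isCoprime_X_sub_C_of_isUnit_sub (sub_ne_zero.2 (fun he => hkl (sk_inj h3 ψ hψ hk hl he))).isUnit
    · intro k hk
      exact dvd_iff_isRoot.2 (hWroot k hk)
  obtain ⟨Q, hQ⟩ := hdvd
  have hUdeg : U.natDegree ≤ 2 * m + 2 * r + 1 := by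
    rw [hU]
    apply natDegree_add_le_of_degree_le
    · apply natDegree_sum_le_of_forall_le
      intro l hl
      rw [Finset.mem_range] at hl
      exact (natDegree_C_mul_X_pow_le _ _).trans (by omega)
    · exact natDegree_C_mul_X_pow_le _ _
  have hWdeg : W.natDegree ≤ 2 * m + 2 * r + 1 := by
    rw [hW]
    refine (natDegree_sub_le_of_le (m := 2 * m + 2 * r + 1) (n := 2 * m + 2 * r + 1) ?_ hUdeg).trans
      (by simp)
    apply natDegree_sum_le_of_forall_le
    intro j hj
    rw [Finset.mem_range] at hj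
    exact (natDegree_C_mul_X_pow_le _ _).trans (by omega)
  have hUodd : ∀ i, U.coeff (2 * i) = 0 := by
    intro i
    rw [hU, coeff_add, finsetSum_coeff, Finset.sum_eq_zero, coeff_C_mul_X_pow, if_neg (by omega),
      add_zero]
    intro l _
    rw [coeff_C_mul_X_pow, if_neg (by omega)]
  have hWeven : ∀ i, W.coeff (2 * i) = if r ≤ i ∧ i < n + r then v (i - r) else 0 := by
    intro i
    rw [hW, coeff_sub, hUodd, sub_zero, finsetSum_coeff]
    simp only [coeff_C_mul_X_pow]
    split_ifs with hi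
    · rw [Finset.sum_eq_single (i - r)]
      · rw [if_pos (by omega)]
      · intro b _ hb
        rw [if_neg (by omega)]
      · intro hj
        exfalso; apply hj
        rw [Finset.mem_range]; omega
    · apply Finset.sum_eq_zero
      intro j hj
      rw [Finset.mem_range] at hj
      rw [if_neg (by omega)]
  have hWtop : W.coeff (2 * m + 2 * r + 1) = -a := by
    rw [hW, coeff_sub, hU, coeff_add, finsetSum_coeff, finsetSum_coeff, Finset.sum_eq_zero,
      Finset.sum_eq_zero, coeff_C_mul_X_pow, if_pos rfl]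
    · ring
    · intro l hl
      rw [Finset.mem_range] at hl
      rw [coeff_C_mul_X_pow, if_neg (by omega)]
    · intro j hj
      rw [Finset.mem_range] at hj
      rw [coeff_C_mul_X_pow, if_neg (by omega)]
  have hQdeg : Q.natDegree ≤ 2 * r + 1 := by
    by_cases hQ0 : Q = 0
    · rw [hQ0]; simp
    have h7 := (PP_monic ψ).natDegree_mul' hQ0
    rw [← hQ, PP_deg hm] at h7
    omega
  have hQtop : Q.coeff (2 * r + 1) = -a := by
    have h8 := coeff_mul_add_eq_of_natDegree_le (f := PP ψ) (g := Q) (PP_deg hm ψ).le hQdeg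
    rw [← hQ, PP_top hm, one_mul] at h8
    rw [← h8, ← hWtop]
    congr 1
  have hU1 : U.eval 1 = 0 := by
    have e2 := hinv 0
    have e3 : h 0 = 0 := by rw [hh]; simp only; rw [MulChar.map_zero, zero_mul]
    rw [e3] at e2
    simp only [AddChar.map_zero_eq_one, one_pow, mul_one, mul_zero] at e2
    rw [hU]
    simp only [eval_add, eval_finsetSum, eval_mul, eval_C, eval_pow, eval_X, one_pow, mul_one]
    linear_combination -e2
  have hUm1 : U.eval (-1) = 0 := by
    have eo : ∀ n : ℕ, (-1 : K) ^ (2 * n + 1) = -1 := fun n => by rw [pow_succ, pow_mul]; simp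
    have e1 : U.eval (-1) = - U.eval 1 := by
      rw [hU]
      have e4 : 2 * m + 2 * r + 1 = 2 * (m + r) + 1 := by ring
      rw [e4]
      simp only [eval_add, eval_finsetSum, eval_mul, eval_C, eval_pow, eval_X, one_pow, mul_one, eo]
      rw [← Finset.sum_mul]
      ring
    rw [e1, hU1, neg_zero]
  have ee : ∀ n : ℕ, (-1 : K) ^ (2 * n) = 1 := fun n => by rw [pow_mul]; simp
  have hW1 : W.eval 1 = ∑ j ∈ range n, v j := by
    rw [hW, eval_sub, hU1]
    simp only [eval_finsetSum, eval_mul, eval_C, eval_pow, eval_X, one_pow, mul_one, sub_zero]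
  have hWm1 : W.eval (-1) = ∑ j ∈ range n, v j := by
    rw [hW, eval_sub, hUm1]
    simp only [eval_finsetSum, eval_mul, eval_C, eval_pow, eval_X, ee, mul_one, sub_zero]
  have hP1 : (PP ψ).eval 1 ≠ 0 := by
    intro h0
    have h9 := PP_one_sq h3 hm hpK ψ hψ
    rw [h0] at h9
    apply hpK
    linear_combination h9
  have hPm1 := PP_neg_one h3 hm ψ
  rw [hQ, eval_mul] at hW1 hWm1
  refine ⟨Q, hQdeg, ?_, ?_, hW1.symm, ?_⟩
  · rw [hQtop, ha]; ring
  · apply mul_left_cancel₀ hP1
    rw [mul_zero, mul_add]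
    rw [hPm1] at hWm1
    linear_combination hW1 - hWm1
  · intro i
    rw [← hQ]; exact hWeven i

/-- order `(p + 1) / 2` -/
theorem sum_zero (h3 : p % 4 = 3) {m : ℕ} (hm : p = 2 * m + 1)
    (h2 : (2 : K) ≠ 0) (hpK : (p : K) ≠ 0) (ψ : AddChar (ZMod p) K) (hψ : ψ.IsPrimitive)
    (v : ℕ → K) (c : K)
    (hv : ∀ i ∈ range (m + 1),
      ∑ j ∈ range (m + 1), chi p K ((i : ZMod p) - (j : ZMod p)) * v j = if i = 0 then c else 0) :
    (∑ j ∈ range (m + 1), v j) ^ 2 = c ^ 2 := by
  obtain ⟨Q, hQd, hQt, hQ1, hQs, hQc⟩ := struct h3 hm h2 hpK ψ hψ (n := m + 1) (r := 0) rfl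
    (Nat.succ_pos m) v c hv
  have hQ : Q = C (Q.coeff 1) * X + C (Q.coeff 0) := eq_X_add_C_of_natDegree_le_one hQd
  have h5 : Q.eval 1 = Q.coeff 1 := by
    rw [hQ] at hQ1 ⊢
    simp only [eval_add, eval_mul, eval_C, eval_X, coeff_add, coeff_C_mul, coeff_X_one,
      coeff_C_succ] at hQ1 ⊢
    have : 2 * Q.coeff 0 = 0 := by linear_combination hQ1
    rcases mul_eq_zero.1 this with h6 | h6
    · exact absurd h6 h2
    · rw [h6]
      try simp
  have hg := gauss_sq h3 h2 ψ hψ
  have hP := PP_one_sq h3 hm hpK ψ hψ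
  have h22 := chi_sq (K := K) (two_ne_p h3)
  rw [hQs, h5]
  rw [mul_zero, zero_add] at hQt
  rw [hQt, mul_pow, hP]
  have hpp : (p : K)⁻¹ * p = 1 := inv_mul_cancel₀ hpK
  have e : -(p : K) * ((p : K)⁻¹ * chi p K 2 * gaussSum (chi p K) ψ * c) ^ 2
      = - ((p : K)⁻¹ * p) * (p : K)⁻¹ * (chi p K 2 * chi p K 2) * gaussSum (chi p K) ψ ^ 2 * c ^ 2 := by
    ring
  rw [e, hg, h22, hpp]
  linear_combination c ^ 2 * hpp

/-- order `(p - 3) / 2` -/
theorem sum_two (h3 : p % 4 = 3) {m : ℕ} (hm : p = 2 * m + 1) (hm3 : 3 ≤ m)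
    (h2 : (2 : K) ≠ 0) (h33 : (3 : K) ≠ 0) (hpK : (p : K) ≠ 0) (ψ : AddChar (ZMod p) K)
    (hψ : ψ.IsPrimitive)
    (v : ℕ → K) (c : K)
    (hv : ∀ i ∈ range (m - 1),
      ∑ j ∈ range (m - 1), chi p K ((i : ZMod p) - (j : ZMod p)) * v j = if i = 0 then c else 0) :
    (3 * ∑ j ∈ range (m - 1), v j) ^ 2 = ((p - 3 + chi p K 3) * c) ^ 2 := by
  obtain ⟨Q, hQd, hQt, hQ1, hQs, hQc⟩ := struct h3 hm h2 hpK ψ hψ (n := m - 1) (r := 2) (by omega)
    (by omega) v c hv
  set g : K := gaussSum (chi p K) ψ with hg'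
  have hg := gauss_sq h3 h2 ψ hψ
  have hP := PP_one_sq h3 hm hpK ψ hψ
  have h22 := chi_sq (K := K) (two_ne_p h3)
  have hg0 : g ≠ 0 := by
    intro h0
    rw [← hg', h0] at hg
    apply hpK
    linear_combination hg
  have hp0 := PP_coeff_zero (K := K) h3 hm ψ
  have hp1 := PP_coeff_one (K := K) h3 hm ψ
  have hc1 := PP_c1 hm (by omega) ψ
  have hc2 := PP_c2 h3 h2 hm (by omega) ψ hψ
  have hc3 := PP_c3 h3 h2 hm (by omega) ψ hψ
  rw [← hg'] at hp1 hc1 hc3
  have hPt := PP_top hm ψ
  have hPd := PP_deg hm ψ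
  set a : K := Q.coeff 5 with ha
  set q0 := Q.coeff 0
  set q1 := Q.coeff 1
  set q2 := Q.coeff 2
  set q3 := Q.coeff 3
  set q4 := Q.coeff 4
  have hQe : Q = C a * X ^ 5 + C q4 * X ^ 4 + C q3 * X ^ 3 + C q2 * X ^ 2 + C q1 * X + C q0 := by
    ext i
    simp only [coeff_add, coeff_C_mul, coeff_X_pow, coeff_X, coeff_C]
    rcases Nat.lt_or_ge 5 i with hi | hi
    · rw [coeff_eq_zero_of_natDegree_lt (by omega)]
      simp only [show ¬ i = 5 by omega, show ¬ i = 4 by omega, show ¬ i = 3 by omega,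
        show ¬ i = 2 by omega, show ¬ 1 = i by omega, show ¬ i = 0 by omega, if_false]
      ring
    · interval_cases i <;> simp <;> rfl
  have hPb : ∀ i, 2 * m < i → (PP ψ).coeff i = 0 := fun i hi =>
    coeff_eq_zero_of_natDegree_lt (by rw [hPd]; exact hi)
  -- coefficient of `X ^ 0`
  have E0 : q0 = 0 := by
    have h := hQc 0
    rw [if_neg (by omega), mul_zero, mul_coeff_zero, hp0] at h
    linear_combination -h
  -- coefficient of `X ^ 2`
  have E2 : q2 = - g * q1 := by
    have h := hQc 1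
    rw [if_neg (by omega), coeff_mul] at h
    rw [show antidiagonal (2 * 1) = {(0, 2), (1, 1), (2, 0)} from rfl] at h
    rw [Finset.sum_insert (by decide), Finset.sum_insert (by decide), Finset.sum_singleton] at h
    simp only [hp0, hp1] at h
    have h' : -1 * q2 + (-g * q1 + (PP ψ).coeff 2 * q0) = 0 := h
    rw [E0] at h'
    linear_combination -h'
  have key : ∀ (i j : ℕ), i ≤ 5 → (j : ℕ) = 2 * m + i → (PP ψ * Q).coeff j =
      (PP ψ).coeff (j - 5) * a + (PP ψ).coeff (j - 4) * q4 + (PP ψ).coeff (j - 3) * q3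
      + (PP ψ).coeff (j - 2) * q2 + (PP ψ).coeff (j - 1) * q1 + (PP ψ).coeff j * q0 := by
    intro i j hi hj
    conv_lhs => rw [hQe]
    obtain ⟨t, rfl⟩ : ∃ t, j = t + 5 := ⟨j - 5, by omega⟩
    have e5 : (PP ψ * (C a * X ^ 5)).coeff (t + 5) = (PP ψ).coeff t * a := by
      rw [← mul_assoc, coeff_mul_X_pow, coeff_mul_C]
    have e4 : (PP ψ * (C q4 * X ^ 4)).coeff (t + 5) = (PP ψ).coeff (t + 1) * q4 := by
      rw [← mul_assoc, show t + 5 = (t + 1) + 4 by ring, coeff_mul_X_pow, coeff_mul_C]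
    have e3 : (PP ψ * (C q3 * X ^ 3)).coeff (t + 5) = (PP ψ).coeff (t + 2) * q3 := by
      rw [← mul_assoc, show t + 5 = (t + 2) + 3 by ring, coeff_mul_X_pow, coeff_mul_C]
    have e2 : (PP ψ * (C q2 * X ^ 2)).coeff (t + 5) = (PP ψ).coeff (t + 3) * q2 := by
      rw [← mul_assoc, show t + 5 = (t + 3) + 2 by ring, coeff_mul_X_pow, coeff_mul_C]
    have e1 : (PP ψ * (C q1 * X)).coeff (t + 5) = (PP ψ).coeff (t + 4) * q1 := by
      rw [← mul_assoc, show t + 5 = (t + 4) + 1 by ring, coeff_mul_X, coeff_mul_C]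
    rw [mul_add, mul_add, mul_add, mul_add, mul_add, coeff_add, coeff_add, coeff_add, coeff_add,
      coeff_add, e5, e4, e3, e2, e1, coeff_mul_C]
    rw [show t + 5 - 5 = t by omega, show t + 5 - 4 = t + 1 by omega,
      show t + 5 - 3 = t + 2 by omega, show t + 5 - 2 = t + 3 by omega,
      show t + 5 - 1 = t + 4 by omega]
  -- coefficient of `X ^ (2 m + 4)`
  have E4 : q4 = g * a := by
    have h := hQc (m + 2)
    rw [if_neg (by omega), key 4 (2 * (m + 2)) (by omega) (by ring)] at h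
    rw [show 2 * (m + 2) - 5 = 2 * m - 1 by omega, show 2 * (m + 2) - 4 = 2 * m by omega, hc1, hPt,
      hPb (2 * (m + 2) - 3) (by omega), hPb (2 * (m + 2) - 2) (by omega),
      hPb (2 * (m + 2) - 1) (by omega), hPb (2 * (m + 2)) (by omega)] at h
    linear_combination h
  -- coefficient of `X ^ (2 m + 2)`
  have E3 : (PP ψ).coeff (2 * m - 3) * a - m * q4 - g * q3 + q2 = 0 := by
    have h := hQc (m + 1)
    rw [if_neg (by omega), key 2 (2 * (m + 1)) (by omega) (by ring)] at h
    rw [show 2 * (m + 1) - 5 = 2 * m - 3 by omega, show 2 * (m + 1) - 4 = 2 * m - 2 by omega,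
      show 2 * (m + 1) - 3 = 2 * m - 1 by omega, show 2 * (m + 1) - 2 = 2 * m by omega, hc1, hc2, hPt,
      hPb (2 * (m + 1) - 1) (by omega), hPb (2 * (m + 1)) (by omega)] at h
    linear_combination h
  -- the value at one
  have h6 : q4 + q2 + q0 = 0 := by
    rw [hQe] at hQ1
    simp only [eval_add, eval_mul, eval_C, eval_X, eval_pow] at hQ1
    apply mul_left_cancel₀ h2
    linear_combination hQ1
  have hQv : Q.eval 1 = a + q3 + q1 := by
    rw [hQe]
    simp only [eval_add, eval_mul, eval_C, eval_X, eval_pow]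
    linear_combination h6
  have E1 : q1 = a := by
    apply mul_left_cancel₀ hg0
    rw [E0, E2, E4] at h6
    linear_combination -h6
  have hpm : (p : K) = 2 * m + 1 := by rw [hm]; push_cast; ring
  have E5 : 6 * q3 = a * ((p - 3 - 2 * chi p K 3) - 6 * (m + 1)) := by
    apply mul_left_cancel₀ hg0
    rw [E4, E2, E1] at E3
    linear_combination (-6 : K) * E3 + a * hc3
  have h7 : 3 * Q.eval 1 = a * (- (p - 3 + chi p K 3)) := by
    apply mul_left_cancel₀ h2
    rw [hQv, E1]
    linear_combination E5 + 3 * a * hpm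
  rw [hQs]
  have e1 : (3 * ((PP ψ).eval 1 * Q.eval 1)) ^ 2 = (PP ψ).eval 1 ^ 2 * (3 * Q.eval 1) ^ 2 := by ring
  have hQt' : a = (p : K)⁻¹ * chi p K 2 * g * c := hQt
  rw [e1, h7, hP, hQt']
  have hpp : (p : K)⁻¹ * p = 1 := inv_mul_cancel₀ hpK
  have e : -(p : K) * ((p : K)⁻¹ * chi p K 2 * g * c * (- (p - 3 + chi p K 3))) ^ 2
      = - ((p : K)⁻¹ * p) * (p : K)⁻¹ * (chi p K 2 * chi p K 2) * g ^ 2
        * ((p - 3 + chi p K 3) * c) ^ 2 := by
    ring
  rw [e, hg, h22, hpp]
  linear_combination ((p - 3 + chi p K 3) * c) ^ 2 * hpp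

end Pool.Agent.Q23.CH
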